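import Pool.Agent.Helper34.Weld.Fin

set_option autoImplicit false

namespace Pool.Agent.Results.MP_0cd561_an.Negative

open Pool.Agent.Helper34.Weld

/-- There is `h ∈ G` without property (L): there is even `f ∈ BMOA` with `‖f‖_BMO = 1` and
`P V_h f = 0`, i.e. `f ∘ h` belongs to the complex conjugate of `BMOA`. -/
theorem result : ∃ h : ℝ → ℝ, MemG h ∧ ¬ PropertyL h ∧ ∃ f : ℝ → ℂ, InBMOA f ∧
    bmoNorm f = 1 ∧ InConjBMOA (fun x => f (h x)) ∧ IsProj (fun x => f (h x)) (fun _ => 0) :=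
  main_normalised

end Pool.Agent.Results.MP_0cd561_an.Negative
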